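import Mathlib

namespace Pool.Agent.H.MP_afeaf0_al

open Polynomial

lemma pseudo {R : Type*} [CommRing R] (c d : R) (f : R[X]) :
    ∃ (N : ℕ) (h : R[X]) (r : R), C (c ^ N) * f = (C c * X - C d) * h + C r := by
  induction f using Polynomial.induction_on' with
  | add f g hf hg =>
    obtain ⟨N, h, r, e⟩ := hf
    obtain ⟨M, h', r', e'⟩ := hg
    refine ⟨N + M, C (c ^ M) * h + C (c ^ N) * h', c ^ M * r + c ^ N * r', ?_⟩
    rw [pow_add, C_mul, C_add, C_mul, C_mul]
    linear_combination (C (c ^ M)) * e + (C (c ^ N)) * e'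
  | monomial n a =>
    obtain ⟨h, e⟩ := sub_dvd_pow_sub_pow (C c * X : R[X]) (C d) n
    refine ⟨n, C a * h, a * d ^ n, ?_⟩
    rw [← C_mul_X_pow_eq_monomial, C_mul, C_pow, C_pow]
    rw [mul_pow] at e
    linear_combination (C a) * e

section
variable {S k : Type*} [CommRing S] [Field k] (α β : S →+* k)

lemma exists_val (hα : Function.Surjective α) (hβ : Function.Surjective β) {e : S}
    (he1 : α e = 1) (he2 : β e = 0) (t : k) : ∃ r : α.eqLocus β, α r = t := by
  obtain ⟨s1, h1⟩ := hα t
  obtain ⟨s2, h2⟩ := hβ t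
  refine ⟨⟨e * s1 + (1 - e) * s2, ?_⟩, ?_⟩
  · show α _ = β _
    simp [he1, he2, h1, h2]
  · simp [he1, h1]

lemma decomp (hα : Function.Surjective α) (hβ : Function.Surjective β) {e : S}
    (he1 : α e = 1) (he2 : β e = 0) (s : S) :
    ∃ r1 r2 : α.eqLocus β, s = r1 + r2 * e := by
  obtain ⟨r2, h2⟩ := exists_val α β hα hβ he1 he2 (α s - β s)
  have h3 : β r2 = α s - β s := by rw [← h2]; exact r2.2.symm
  refine ⟨⟨s - r2 * e, ?_⟩, r2, by simp⟩
  show α _ = β _
  simp [he1, he2, h2]

lemma finite_S (hα : Function.Surjective α) (hβ : Function.Surjective β) {e : S}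
    (he1 : α e = 1) (he2 : β e = 0) : Module.Finite (α.eqLocus β) S := by
  classical
  refine ⟨⟨{1, e}, ?_⟩⟩
  rw [eq_top_iff]
  intro s _
  obtain ⟨r1, r2, rfl⟩ := decomp α β hα hβ he1 he2 s
  refine add_mem ?_ ?_
  · have : (r1 : S) = r1 • (1 : S) := by simp [Subring.smul_def]
    rw [this]; exact Submodule.smul_mem _ _ (Submodule.subset_span (by simp))
  · have : (r2 : S) * e = r2 • e := rfl
    rw [this]; exact Submodule.smul_mem _ _ (Submodule.subset_span (by simp))

lemma fg_of_stable [IsNoetherianRing S] (R : Subring S) [Module.Finite R S] (I : Ideal R)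
    (hI : ∀ r ∈ I, ∀ s : S, ∃ r' ∈ I, (r' : S) = s * r) : I.FG := by
  let I' : Ideal S :=
    { carrier := {s | ∃ r ∈ I, (r : S) = s}
      zero_mem' := ⟨0, zero_mem _, rfl⟩
      add_mem' := by
        rintro _ _ ⟨a, ha, rfl⟩ ⟨b, hb, rfl⟩; exact ⟨a + b, add_mem ha hb, rfl⟩
      smul_mem' := by
        rintro s _ ⟨a, ha, rfl⟩; exact hI a ha s }
  have h1 : Module.Finite S I' := inferInstance
  have h2 : Module.Finite R I' := Module.Finite.trans S I'
  let f : I →ₗ[R] I' :=
    { toFun := fun r => ⟨((r : R) : S), r, r.2, rfl⟩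
      map_add' := fun a b => rfl
      map_smul' := fun a b => rfl }
  have hf : Function.Bijective f := by
    constructor
    · intro a b h
      have := congrArg Subtype.val h
      exact Subtype.ext (Subtype.ext this)
    · rintro ⟨_, r, hr, rfl⟩; exact ⟨⟨r, hr⟩, rfl⟩
  have h3 : Module.Finite R I := Module.Finite.equiv (LinearEquiv.ofBijective f hf).symm
  exact (Module.Finite.iff_fg (N := I)).mp h3

lemma noeth [IsNoetherianRing S] (hα : Function.Surjective α) (hβ : Function.Surjective β) {e : S}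
    (he1 : α e = 1) (he2 : β e = 0) : IsNoetherianRing (α.eqLocus β) := by
  have := finite_S α β hα hβ he1 he2
  set R := α.eqLocus β with hR
  let a : R →+* k := α.comp R.subtype
  have hab : ∀ r : R, β r = a r := fun r => r.2.symm
  have hmem : ∀ r : R, a r = 0 → ∀ s : S, s * r ∈ R := by
    intro r hr s
    show α _ = β _
    have h1 : α r = 0 := hr
    rw [map_mul, map_mul, h1, hab, hr, mul_zero, mul_zero]
  have hker : ∀ r : R, ∀ hr : a r = 0, ∀ s : S, a ⟨s * r, hmem r hr s⟩ = 0 := by
    intro r hr s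
    have h1 : α r = 0 := hr
    show α (s * r) = 0
    rw [map_mul, h1, mul_zero]
  refine IsNoetherianRing.of_prime fun P hP => ?_
  by_cases hJ : ∀ r : R, a r = 0 → r ∈ P
  · refine fg_of_stable R P fun r hr s => ?_
    have hr0 : a r = 0 := by
      by_contra h0
      obtain ⟨u, hu⟩ := exists_val α β hα hβ he1 he2 (a r)⁻¹
      have hu' : a u = (a r)⁻¹ := hu
      have h1 : (1 - u * r : R) ∈ P := hJ _ (by rw [map_sub, map_mul, hu', inv_mul_cancel₀ h0]; simp)
      have h2 : (1 : R) ∈ P := by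
        have := add_mem h1 (P.mul_mem_left u hr)
        simpa using this
      exact hP.ne_top ((Ideal.eq_top_iff_one _).mpr h2)
    exact ⟨⟨s * r, hmem r hr0 s⟩, hJ _ (hker r hr0 s), rfl⟩
  · push Not at hJ
    obtain ⟨j, hj0, hjP⟩ := hJ
    have hfg : (P ⊓ RingHom.ker a).FG := by
      refine fg_of_stable R _ fun r hr s => ?_
      have hr0 : a r = 0 := hr.2
      refine ⟨⟨s * r, hmem r hr0 s⟩, ⟨?_, hker r hr0 s⟩, rfl⟩
      have h1 : j * ⟨s * r, hmem r hr0 s⟩ = ⟨s * j, hmem j hj0 s⟩ * r := by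
        apply Subtype.ext; simp; ring
      have h2 : j * ⟨s * r, hmem r hr0 s⟩ ∈ P := by rw [h1]; exact P.mul_mem_left _ hr.1
      exact (hP.mem_or_mem h2).resolve_left hjP
    by_cases hPJ : ∀ r ∈ P, a r = 0
    · have : P ⊓ RingHom.ker a = P := inf_eq_left.mpr fun r hr => hPJ r hr
      rwa [this] at hfg
    · push Not at hPJ
      obtain ⟨r, hr, h0⟩ := hPJ
      obtain ⟨u, hu⟩ := exists_val α β hα hβ he1 he2 (a r)⁻¹
      have hu' : a u = (a r)⁻¹ := hu
      have : P = Ideal.span {r} ⊔ (P ⊓ RingHom.ker a) := by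
        apply le_antisymm
        · intro t ht
          have e1 : t = (t * u) * r + t * (1 - u * r) := by ring
          rw [e1]
          refine Submodule.add_mem_sup (Ideal.mul_mem_left _ _ (Ideal.mem_span_singleton_self r))
            ⟨P.mul_mem_right _ ht, ?_⟩
          show a _ = 0
          rw [map_mul, map_sub, map_mul, hu', inv_mul_cancel₀ h0]; simp
        · exact sup_le ((Ideal.span_singleton_le_iff_mem _).mpr hr) inf_le_left
      rw [this]
      exact Submodule.FG.sup (Submodule.fg_span_singleton r) hfg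

lemma prime_le_principal [IsDomain S] [IsNoetherianRing S] {f : S} (hf : ¬ IsUnit f)
    (P : Ideal S) (hP : P.IsPrime) (hle : ∀ s ∈ P, f ∣ s) (hn : f ∉ P) : P = ⊥ := by
  rw [eq_bot_iff, ← Ideal.iInf_pow_eq_bot_of_isDomain (Ideal.span {f})
    (by rwa [Ne, Ideal.span_singleton_eq_top])]
  have : ∀ n : ℕ, ∀ s ∈ P, f ^ n ∣ s := by
    intro n
    induction n with
    | zero => intro s _; simp
    | succ n ih =>
      intro s hs
      obtain ⟨t, rfl⟩ := hle s hs
      rw [pow_succ']
      exact mul_dvd_mul_left _ (ih t ((hP.mem_or_mem hs).resolve_left hn))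
  intro s hs
  refine (Submodule.mem_iInf _).mpr fun n => ?_
  rw [Ideal.span_singleton_pow, Ideal.mem_span_singleton]
  exact this n s hs

theorem chains [IsDomain S] [IsNoetherianRing S] {V : Type*} [CommRing V] [IsDomain V]
    (hα : Function.Surjective α) (hβ : Function.Surjective β) {e : S}
    (he1 : α e = 1) (he2 : β e = 0) (hker : ∀ s, α s = 0 → (1 - e) ∣ s)
    (γ : S →+* V) (hγ : ∀ s, γ s = 0 → β s = 0) (hγe : γ e = 0) (x0 : S) (hx0 : β x0 = 0)
    (hx1 : γ x0 ≠ 0) :
    ∃ O P Q P1 P2 : PrimeSpectrum (α.eqLocus β)[X],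
      O ⋖ P ∧ P ⋖ Q ∧ O < P1 ∧ P1 < P2 ∧ P2 < Q := by
  set R := α.eqLocus β with hR
  have he0 : e ≠ 0 := by rintro rfl; simp at he1
  have he1' : 1 - e ≠ 0 := by
    intro h
    have : e = 1 := by linear_combination -h
    rw [this] at he2; simp at he2
  let c : R := ⟨e * (1 - e), by show α _ = β _; simp [he1, he2]⟩
  let d : R := ⟨e * (1 - e) * e, by show α _ = β _; simp [he1, he2]⟩
  have hc0 : (c : S) ≠ 0 := mul_ne_zero he0 he1'
  have hc0' : c ≠ 0 := fun h => hc0 (by rw [h]; rfl)
  let π : R[X] →+* S := eval₂RingHom R.subtype e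
  have hπC : ∀ r : R, π (C r) = r := fun r => by simp [π]
  have hπX : π X = e := by simp [π]
  have hπs : Function.Surjective π := by
    intro s
    obtain ⟨r1, r2, rfl⟩ := decomp α β hα hβ he1 he2 s
    exact ⟨C r1 + C r2 * X, by rw [map_add, map_mul, hπC, hπC, hπX]⟩
  have hπl : π (C c * X - C d) = 0 := by
    rw [map_sub, map_mul, hπC, hπC, hπX]; simp [c, d]
  have hdiv : ∀ f, π f = 0 → ∃ (N : ℕ) (h : R[X]), C (c ^ N) * f = (C c * X - C d) * h := by
    intro f hf
    obtain ⟨N, h, r, e1⟩ := pseudo c d f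
    have := congrArg π e1
    rw [map_mul, hf, map_add, map_mul, hπl, hπC, hπC] at this
    have hr : r = 0 := Subtype.ext (by simpa using this.symm)
    exact ⟨N, h, by rw [e1, hr]; simp⟩
  have hl0 : (C c * X - C d : R[X]) ≠ 0 := by
    intro h
    have := congrArg (fun f : R[X] => f.coeff 1) h
    simp at this
    exact hc0' this
  have hld : (C c * X - C d : R[X]).natDegree = 1 := by
    rw [sub_eq_add_neg, ← C_neg]; exact natDegree_linear hc0'
  let O : PrimeSpectrum R[X] := ⟨⊥, Ideal.isPrime_bot⟩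
  let P : PrimeSpectrum R[X] := ⟨RingHom.ker π, RingHom.ker_isPrime _⟩
  let Q : PrimeSpectrum R[X] := ⟨RingHom.ker (α.comp π), RingHom.ker_isPrime _⟩
  let P1 : PrimeSpectrum R[X] :=
    ⟨RingHom.ker (mapRingHom (γ.comp R.subtype)), RingHom.ker_isPrime _⟩
  let P2 : PrimeSpectrum R[X] :=
    ⟨RingHom.ker (mapRingHom (α.comp R.subtype)), RingHom.ker_isPrime _⟩
  have hlt : ∀ {A B : PrimeSpectrum R[X]}, (∀ f ∈ A.asIdeal, f ∈ B.asIdeal) →
      (∃ f ∈ B.asIdeal, f ∉ A.asIdeal) → A < B := by
    rintro A B h1 ⟨f, h2, h3⟩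
    exact lt_of_le_not_ge h1 fun h => h3 (h h2)
  refine ⟨O, P, Q, P1, P2, ⟨?_, ?_⟩, ⟨?_, ?_⟩, ?_, ?_, ?_⟩
  · refine hlt (fun f hf => ?_) ⟨C c * X - C d, hπl, hl0⟩
    have : f = 0 := hf
    rw [this]; exact zero_mem _
  · intro T hOT hTP
    have hTP' : ∀ f ∈ T.asIdeal, π f = 0 := fun f hf => hTP.le hf
    have hcT : ∀ N : ℕ, C (c ^ N) ∉ T.asIdeal := by
      intro N h
      have := hTP' _ h
      rw [hπC] at this
      exact pow_ne_zero N hc0 (by simpa using this)
    have hl : C c * X - C d ∈ T.asIdeal := by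
      by_contra hl
      have key : ∀ n : ℕ, ∀ g ∈ T.asIdeal, g.natDegree = n → g = 0 := by
        intro n
        induction n using Nat.strong_induction_on with
        | _ n ih =>
          intro g hg hn
          by_contra hg0
          obtain ⟨N, h, e1⟩ := hdiv g (hTP' g hg)
          have hh : h ∈ T.asIdeal := by
            refine (T.isPrime.mem_or_mem ?_).resolve_left hl
            rw [← e1]; exact Ideal.mul_mem_left _ _ hg
          have hcN : (C (c ^ N) : R[X]) ≠ 0 := by
            rw [Ne, C_eq_zero]; exact pow_ne_zero N hc0'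
          have hh0 : h ≠ 0 := by
            rintro rfl
            rw [mul_zero] at e1
            exact mul_ne_zero hcN hg0 e1
          have hdeg := congrArg natDegree e1
          rw [natDegree_mul hcN hg0, natDegree_mul hl0 hh0, natDegree_C, hld] at hdeg
          exact hh0 (ih h.natDegree (by omega) h hh rfl)
      exact hOT.not_ge fun g hg => key _ g hg rfl
    refine hTP.not_ge fun f hf => ?_
    obtain ⟨N, h, e1⟩ := hdiv f hf
    refine (T.isPrime.mem_or_mem ?_).resolve_left (hcT N)
    rw [e1]; exact Ideal.mul_mem_right _ _ hl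
  · refine hlt (fun f hf => ?_) ⟨1 - X, ?_, ?_⟩
    · have : π f = 0 := hf
      show α (π f) = 0
      rw [this, map_zero]
    · show α (π (1 - X)) = 0
      rw [map_sub, map_one, hπX, map_sub, map_one, he1, sub_self]
    · show ¬ π (1 - X) = 0
      rw [map_sub, map_one, hπX]; exact he1'
  · intro T hPT hTQ
    have hT' : (T.asIdeal.map π).IsPrime := Ideal.map_isPrime_of_surjective hπs hPT.le
    have hcm : ∀ f, π f ∈ T.asIdeal.map π → f ∈ T.asIdeal := by
      intro f hf
      obtain ⟨g, hg, e1⟩ := (Ideal.mem_map_iff_of_surjective π hπs).mp hf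
      have : f - g ∈ T.asIdeal := hPT.le (show π (f - g) = 0 by rw [map_sub, e1, sub_self])
      simpa using add_mem this hg
    by_cases hn : 1 - e ∈ T.asIdeal.map π
    · refine hTQ.not_ge fun f hf => hcm f ?_
      obtain ⟨t, ht⟩ := hker (π f) hf
      rw [ht]; exact Ideal.mul_mem_right _ _ hn
    · have := prime_le_principal (f := 1 - e) ?_ _ hT' ?_ hn
      · refine hPT.not_ge fun f hf => ?_
        have h2 : π f ∈ T.asIdeal.map π := Ideal.mem_map_of_mem _ hf
        rw [this] at h2
        exact h2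
      · intro hu
        have := hu.map α
        rw [map_sub, map_one, he1, sub_self] at this
        exact not_isUnit_zero this
      · intro s hs
        obtain ⟨g, hg, rfl⟩ := (Ideal.mem_map_iff_of_surjective π hπs).mp hs
        exact hker _ (hTQ.le hg)
  · refine hlt (fun f hf => ?_) ⟨C c, ?_, ?_⟩
    · have : f = 0 := hf
      rw [this]; exact zero_mem _
    · show mapRingHom (γ.comp R.subtype) (C c) = 0
      simp [c, hγe]
    · show ¬ C c = 0
      rw [C_eq_zero]; exact hc0'
  · refine hlt (fun f hf => ?_) ⟨C ⟨x0 * (1 - e), by show α _ = β _; simp [he1, hx0]⟩, ?_, ?_⟩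
    · have h1 : f.map (γ.comp R.subtype) = 0 := hf
      show f.map (α.comp R.subtype) = 0
      ext n
      have h2 := congrArg (fun g => g.coeff n) h1
      simp only [coeff_map, coeff_zero] at h2 ⊢
      have h3 := hγ _ h2
      exact (f.coeff n).2.trans h3
    · show mapRingHom (α.comp R.subtype) (C _) = 0
      simp [he1]
    · show ¬ mapRingHom (γ.comp R.subtype) (C _) = 0
      simp [hγe, hx1]
  · refine hlt (fun f hf => ?_) ⟨1 - X, ?_, ?_⟩
    · have h1 : f.map (α.comp R.subtype) = 0 := hf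
      show α (π f) = 0
      have : α (π f) = (f.map (α.comp R.subtype)).eval 1 := by
        simp only [π, coe_eval₂RingHom]
        rw [hom_eval₂, he1, eval_map]
      rw [this, h1, eval_zero]
    · show α (π (1 - X)) = 0
      rw [map_sub, map_one, hπX, map_sub, map_one, he1, sub_self]
    · show ¬ mapRingHom (α.comp R.subtype) (1 - X) = 0
      intro h
      have := congrArg (fun g : k[X] => g.coeff 0) h
      simp at this

end

end Pool.Agent.H.MP_afeaf0_al
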