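import Mathlib

namespace Pool.Agent.H.MP_afeaf0_al

open Polynomial

section
variable {k Ω : Type*} [Field k] [Field Ω] [Algebra k Ω]

noncomputable def mon (x y : Ω) (z : ℤ × ℤ) : Ω := x ^ z.1 * y ^ z.2

noncomputable def FF (k : Type*) [Field k] [Algebra k Ω] (x y : Ω) (Z : Set (ℤ × ℤ)) :
    Submodule k Ω := Submodule.span k (mon x y '' Z)

def Qd (M : ℤ) : Set (ℤ × ℤ) := {z | 0 ≤ z.1 ∧ 0 ≤ z.2 ∧ z.1 + z.2 ≤ M}

def Zq (M q : ℤ) : Set (ℤ × ℤ) := {z | 0 ≤ z.1 ∨ 0 ≤ z.2 ∨ z.1 + z.2 ≤ M - 3 * q}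

variable {x y : Ω}

lemma mon_add (hx : x ≠ 0) (hy : y ≠ 0) (z w : ℤ × ℤ) :
    mon x y (z + w) = mon x y z * mon x y w := by
  simp only [mon, Prod.fst_add, Prod.snd_add, zpow_add₀ hx, zpow_add₀ hy]; ring

lemma mon_zero : mon x y 0 = 1 := by simp [mon]

lemma mon_pow (z : ℤ × ℤ) (q : ℕ) : mon x y z ^ q = mon x y ((q : ℤ) * z.1, (q : ℤ) * z.2) := by
  simp only [mon, mul_pow, mul_comm (q : ℤ), zpow_mul, zpow_natCast]

lemma mon_mem {Z : Set (ℤ × ℤ)} {z : ℤ × ℤ} (h : z ∈ Z) : mon x y z ∈ FF k x y Z :=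
  Submodule.subset_span ⟨z, h, rfl⟩

lemma FF_mono {Z W : Set (ℤ × ℤ)} (h : Z ⊆ W) : FF k x y Z ≤ FF k x y W :=
  Submodule.span_mono (Set.image_mono h)

lemma Qd_mono {M N : ℤ} (h : M ≤ N) : Qd M ⊆ Qd N := fun _ hz => ⟨hz.1, hz.2.1, hz.2.2.trans h⟩

lemma FF_mul (hx : x ≠ 0) (hy : y ≠ 0) {Z W U : Set (ℤ × ℤ)}
    (h : ∀ z ∈ Z, ∀ w ∈ W, z + w ∈ U) {f g : Ω} (hf : f ∈ FF k x y Z) (hg : g ∈ FF k x y W) :
    f * g ∈ FF k x y U := by
  induction hf using Submodule.span_induction with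
  | mem f hf =>
    obtain ⟨z, hz, rfl⟩ := hf
    induction hg using Submodule.span_induction with
    | mem g hg =>
      obtain ⟨w, hw, rfl⟩ := hg
      rw [← mon_add hx hy]; exact mon_mem (h z hz w hw)
    | zero => simp
    | add a b _ _ ha hb => rw [mul_add]; exact add_mem ha hb
    | smul c a _ ha => rw [mul_smul_comm]; exact Submodule.smul_mem _ _ ha
  | zero => simp
  | add a b _ _ ha hb => rw [add_mul]; exact add_mem ha hb
  | smul c a _ ha => rw [smul_mul_assoc]; exact Submodule.smul_mem _ _ ha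

lemma Qd_mul (hx : x ≠ 0) (hy : y ≠ 0) {M N : ℤ} {f g : Ω} (hf : f ∈ FF k x y (Qd M))
    (hg : g ∈ FF k x y (Qd N)) : f * g ∈ FF k x y (Qd (M + N)) := by
  refine FF_mul hx hy ?_ hf hg
  rintro z ⟨h1, h2, h3⟩ w ⟨h4, h5, h6⟩
  refine ⟨?_, ?_, ?_⟩ <;> simp only [Prod.fst_add, Prod.snd_add] <;> omega

lemma mon_mem_A {z : ℤ × ℤ} (h1 : 0 ≤ z.1) (h2 : 0 ≤ z.2) :
    mon x y z ∈ Algebra.adjoin k ({x, y} : Set Ω) := by
  obtain ⟨a, b⟩ := z
  obtain ⟨a, rfl⟩ := Int.eq_ofNat_of_zero_le h1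
  obtain ⟨b, rfl⟩ := Int.eq_ofNat_of_zero_le h2
  simp only [mon, zpow_natCast]
  exact mul_mem (pow_mem (Algebra.subset_adjoin (by simp)) _)
    (pow_mem (Algebra.subset_adjoin (by simp)) _)

lemma mem_A_of_Qd {M : ℤ} {f : Ω} (hf : f ∈ FF k x y (Qd M)) :
    f ∈ Algebra.adjoin k ({x, y} : Set Ω) := by
  induction hf using Submodule.span_induction with
  | mem f hf => obtain ⟨z, hz, rfl⟩ := hf; exact mon_mem_A hz.1 hz.2.1
  | zero => exact zero_mem _
  | add a b _ _ ha hb => exact add_mem ha hb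
  | smul c a _ ha => exact Subalgebra.smul_mem _ ha _

lemma Qd_of_mem_A (hx : x ≠ 0) (hy : y ≠ 0) {f : Ω}
    (hf : f ∈ Algebra.adjoin k ({x, y} : Set Ω)) : ∃ M : ℕ, f ∈ FF k x y (Qd M) := by
  induction hf using Algebra.adjoin_induction with
  | mem f hf =>
    rcases hf with rfl | rfl
    · refine ⟨1, ?_⟩
      have : mon f y (1, 0) = f := by simp [mon]
      rw [← this]
      have h2 : mon (mon f y (1, 0)) y = mon f y := by rw [this]
      simp only [FF, h2]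
      exact mon_mem (by simp [Qd])
    · refine ⟨1, ?_⟩
      have : mon x f (0, 1) = f := by simp [mon]
      have h3 : mon x f (0, 1) ∈ FF k x f (Qd (1 : ℕ)) := mon_mem (by simp [Qd])
      rwa [this] at h3
  | algebraMap r =>
    refine ⟨0, ?_⟩
    rw [Algebra.algebraMap_eq_smul_one, ← mon_zero (x := x) (y := y)]
    exact Submodule.smul_mem _ _ (mon_mem (by simp [Qd]))
  | add a b _ _ ha hb =>
    obtain ⟨M, hM⟩ := ha
    obtain ⟨N, hN⟩ := hb
    exact ⟨M + N, add_mem (FF_mono (Qd_mono (by omega)) hM) (FF_mono (Qd_mono (by omega)) hN)⟩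
  | mul a b _ _ ha hb =>
    obtain ⟨M, hM⟩ := ha
    obtain ⟨N, hN⟩ := hb
    exact ⟨M + N, by push_cast; exact Qd_mul hx hy hM hN⟩

lemma Qd_common (hx : x ≠ 0) (hy : y ≠ 0) (f : ℕ → Ω) (d : ℕ)
    (hf : ∀ i < d, f i ∈ Algebra.adjoin k ({x, y} : Set Ω)) :
    ∃ M : ℕ, ∀ i < d, f i ∈ FF k x y (Qd M) := by
  induction d with
  | zero => exact ⟨0, fun i hi => absurd hi (by omega)⟩
  | succ d ih =>
    obtain ⟨M, hM⟩ := ih (fun i hi => hf i (by omega))
    obtain ⟨N, hN⟩ := Qd_of_mem_A hx hy (hf d (by omega))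
    refine ⟨M + N, fun i hi => ?_⟩
    rcases Nat.lt_succ_iff_lt_or_eq.mp hi with h | rfl
    · exact FF_mono (Qd_mono (by omega)) (hM i h)
    · exact FF_mono (Qd_mono (by omega)) hN

lemma exists_th (x y : Ω) : ∃ th : Ω →ₗ[k] Ω, th 1 = 1 ∧
    (∀ z ω, th (mon x y z * ω) = mon x y z * th ω) ∧
    ∀ ω, ∃ c ∈ Algebra.adjoin k ({x, y} : Set Ω), c ≠ 0 ∧
      c * th ω ∈ Algebra.adjoin k ({x, y} : Set Ω) := by
  set A := Algebra.adjoin k ({x, y} : Set Ω) with hA
  let K : Subfield Ω := Subfield.closure (A : Set Ω)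
  obtain ⟨θ, hθ⟩ := Module.Projective.exists_dual_eq_one K (one_ne_zero : (1 : Ω) ≠ 0)
  have hK : ∀ a ∈ K, ∀ ω, ((θ (a * ω) : K) : Ω) = a * (θ ω : K) := by
    intro a ha ω
    have := θ.map_smul ⟨a, ha⟩ ω
    have h2 : (⟨a, ha⟩ : K) • ω = a * ω := rfl
    rw [h2] at this
    rw [this]; rfl
  have hAK : ∀ a ∈ A, a ∈ K := fun a ha => Subfield.subset_closure ha
  refine ⟨{ toFun := fun ω => (θ ω : K), map_add' := by intro a b; simp,
            map_smul' := ?_ }, ?_, ?_, ?_⟩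
  · intro c ω
    simp only [RingHom.id_apply, Algebra.smul_def]
    exact hK _ (hAK _ (A.algebraMap_mem c)) ω
  · simp [hθ]
  · intro z ω
    refine hK _ ?_ ω
    exact mul_mem (zpow_mem (hAK _ (Algebra.subset_adjoin (by simp))) _)
      (zpow_mem (hAK _ (Algebra.subset_adjoin (by simp))) _)
  · intro ω
    obtain ⟨a, ha, b, hb, hab⟩ := Subfield.mem_closure_iff.mp (θ ω).2
    have hcl : Subring.closure (A : Set Ω) ≤ A.toSubring := Subring.closure_le.mpr (fun _ h => h)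
    by_cases hb0 : b = 0
    · refine ⟨1, one_mem _, one_ne_zero, ?_⟩
      simp only [LinearMap.coe_mk, AddHom.coe_mk, one_mul]
      rw [← hab, hb0, div_zero]; exact zero_mem _
    · refine ⟨b, hcl hb, hb0, ?_⟩
      simp only [LinearMap.coe_mk, AddHom.coe_mk]
      rw [← hab, mul_div_cancel₀ _ hb0]; exact hcl ha

lemma bound_pow (hx : x ≠ 0) (hy : y ≠ 0) (th : Ω →ₗ[k] Ω)
    (h2 : ∀ z ω, th (mon x y z * ω) = mon x y z * th ω)
    (h3 : ∀ ω, ∃ c ∈ Algebra.adjoin k ({x, y} : Set Ω), c ≠ 0 ∧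
      c * th ω ∈ Algebra.adjoin k ({x, y} : Set Ω))
    {a : Ω} (ha : IsIntegral (Algebra.adjoin k ({x, y} : Set Ω)) a) :
    ∃ n : ℕ, ∃ c ∈ Algebra.adjoin k ({x, y} : Set Ω), c ≠ 0 ∧ ∃ M : ℕ, ∀ q : ℕ,
      c * th (a ^ q) ∈ FF k x y (Qd (M + n * q)) := by
  set A := Algebra.adjoin k ({x, y} : Set Ω) with hA
  obtain ⟨p, hp, hpa⟩ := ha
  set d := p.natDegree with hd
  have hsum : a ^ d = - ∑ i ∈ Finset.range d, ((p.coeff i : A) : Ω) * a ^ i := by
    rw [eval₂_eq_sum_range, Finset.sum_range_succ, ← hd] at hpa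
    have : p.coeff d = 1 := hp.coeff_natDegree
    rw [this, map_one, one_mul] at hpa
    exact eq_neg_of_add_eq_zero_right hpa
  have hd0 : 0 < d := by
    rcases Nat.eq_zero_or_pos d with h | h
    · rw [h] at hsum; simp at hsum
    · exact h
  obtain ⟨n, hn⟩ := Qd_common (k := k) hx hy (fun i => ((p.coeff i : A) : Ω)) d
    (fun i _ => (p.coeff i).2)
  have hden : ∀ m : ℕ, ∃ c ∈ A, c ≠ 0 ∧ ∀ i < m, c * th (a ^ i) ∈ A := by
    intro m
    induction m with
    | zero => exact ⟨1, one_mem _, one_ne_zero, fun i hi => absurd hi (by omega)⟩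
    | succ m ih =>
      obtain ⟨c, hc, hc0, hcm⟩ := ih
      obtain ⟨c', hc', hc0', hcm'⟩ := h3 (a ^ m)
      refine ⟨c * c', mul_mem hc hc', mul_ne_zero hc0 hc0', fun i hi => ?_⟩
      rcases Nat.lt_succ_iff_lt_or_eq.mp hi with h | rfl
      · rw [mul_comm c, mul_assoc]; exact mul_mem hc' (hcm i h)
      · rw [mul_assoc]; exact mul_mem hc hcm'
  obtain ⟨c, hc, hc0, hcm⟩ := hden d
  obtain ⟨M, hM⟩ := Qd_common (k := k) hx hy (fun i => c * th (a ^ i)) d hcm
  let W : ℤ → Submodule k Ω := fun D =>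
    Submodule.span k {ω | ∃ z ∈ Qd D, ∃ i < d, ω = mon x y z * a ^ i}
  have hW1 : ∀ D : ℤ, ∀ f ∈ FF k x y (Qd D), ∀ i < d, f * a ^ i ∈ W D := by
    intro D f hf i hi
    induction hf using Submodule.span_induction with
    | mem f hf => obtain ⟨z, hz, rfl⟩ := hf; exact Submodule.subset_span ⟨z, hz, i, hi, rfl⟩
    | zero => simp
    | add u v _ _ hu hv => rw [add_mul]; exact add_mem hu hv
    | smul r u _ hu => rw [smul_mul_assoc]; exact Submodule.smul_mem _ _ hu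
  have hW2 : ∀ D : ℤ, ∀ ω ∈ W D, ω * a ∈ W (D + n) := by
    intro D ω hω
    induction hω using Submodule.span_induction with
    | mem f hf =>
      obtain ⟨z, hz, i, hi, rfl⟩ := hf
      rw [mul_assoc, ← pow_succ]
      rcases Nat.lt_or_eq_of_le (Nat.succ_le_of_lt hi) with h | h
      · exact hW1 _ _ (mon_mem (Qd_mono (by omega) hz)) _ h
      · have h' : i + 1 = d := h
        rw [h', hsum, mul_neg, Finset.mul_sum]
        refine neg_mem (Submodule.sum_mem _ fun j hj => ?_)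
        rw [← mul_assoc]
        exact hW1 _ _ (Qd_mul hx hy (mon_mem hz) (hn j (Finset.mem_range.mp hj))) _
          (Finset.mem_range.mp hj)
    | zero => simp
    | add u v _ _ hu hv => rw [add_mul]; exact add_mem hu hv
    | smul r u _ hu => rw [smul_mul_assoc]; exact Submodule.smul_mem _ _ hu
  have hW3 : ∀ q : ℕ, a ^ q ∈ W (n * q) := by
    intro q
    induction q with
    | zero =>
      refine Submodule.subset_span ⟨0, by simp [Qd], 0, hd0, by simp [mon_zero]⟩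
    | succ q ih =>
      have := hW2 _ _ ih
      rw [pow_succ]
      have e : ((n : ℤ) * ((q + 1 : ℕ) : ℤ)) = n * q + n := by push_cast; ring
      rw [e]; exact this
  have hW4 : ∀ D : ℤ, ∀ ω ∈ W D, c * th ω ∈ FF k x y (Qd (M + D)) := by
    intro D ω hω
    induction hω using Submodule.span_induction with
    | mem f hf =>
      obtain ⟨z, hz, i, hi, rfl⟩ := hf
      rw [h2, mul_left_comm, mul_comm]
      exact Qd_mul hx hy (hM i hi) (mon_mem hz)
    | zero => simp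
    | add u v _ _ hu hv => rw [map_add, mul_add]; exact add_mem hu hv
    | smul r u _ hu => rw [map_smul, mul_smul_comm]; exact Submodule.smul_mem _ _ hu
  exact ⟨n, c, hc, hc0, M, fun q => hW4 _ _ (hW3 q)⟩

lemma exists_kappa (hli : LinearIndependent k (mon x y)) :
    ∃ κ : ℤ × ℤ → (Ω →ₗ[k] k), ∀ z w, κ z (mon x y w) = if w = z then 1 else 0 := by
  classical
  have : ∀ z : ℤ × ℤ, ∃ g : Ω →ₗ[k] k, ∀ w, g (mon x y w) = if w = z then 1 else 0 := by
    intro z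
    obtain ⟨g, hg⟩ := LinearMap.exists_extend ((Finsupp.lapply z).comp hli.repr)
    refine ⟨g, fun w => ?_⟩
    have h1 := LinearMap.congr_fun hg ⟨mon x y w, Submodule.subset_span ⟨w, rfl⟩⟩
    simp only [LinearMap.coe_comp, Submodule.coe_subtype, Function.comp_apply,
      Finsupp.lapply_apply] at h1
    rw [h1, hli.repr_eq_single w _ rfl, Finsupp.single_apply]
  choose κ hκ using this
  exact ⟨κ, hκ⟩


lemma kappa_zero {κ : ℤ × ℤ → (Ω →ₗ[k] k)}
    (hκ : ∀ z w, κ z (mon x y w) = if w = z then 1 else 0) {Z : Set (ℤ × ℤ)} {z : ℤ × ℤ}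
    (hz : z ∉ Z) {f : Ω} (hf : f ∈ FF k x y Z) : κ z f = 0 := by
  induction hf using Submodule.span_induction with
  | mem f hf =>
    obtain ⟨w, hw, rfl⟩ := hf
    rw [hκ, if_neg]; rintro rfl; exact hz hw
  | zero => simp
  | add u v _ _ hu hv => rw [map_add, hu, hv, add_zero]
  | smul r u _ hu => rw [map_smul, hu, smul_zero]

lemma kappa_shift (hx : x ≠ 0) (hy : y ≠ 0) {κ : ℤ × ℤ → (Ω →ₗ[k] k)}
    (hκ : ∀ z w, κ z (mon x y w) = if w = z then 1 else 0) {Z : Set (ℤ × ℤ)} (z w : ℤ × ℤ)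
    {f : Ω} (hf : f ∈ FF k x y Z) : κ (z + w) (f * mon x y w) = κ z f := by
  induction hf using Submodule.span_induction with
  | mem f hf =>
    obtain ⟨u, _, rfl⟩ := hf
    rw [← mon_add hx hy, hκ, hκ]
    simp
  | zero => simp
  | add u v _ _ hu hv => rw [add_mul, map_add, map_add, hu, hv]
  | smul r u _ hu => rw [smul_mul_assoc, map_smul, map_smul, hu]

lemma kappa_ne {κ : ℤ × ℤ → (Ω →ₗ[k] k)}
    (hκ : ∀ z w, κ z (mon x y w) = if w = z then 1 else 0) {Z : Set (ℤ × ℤ)}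
    {f : Ω} (hf : f ∈ FF k x y Z) (h0 : f ≠ 0) : ∃ z ∈ Z, κ z f ≠ 0 := by
  classical
  obtain ⟨l, hl, rfl⟩ := (Finsupp.mem_span_image_iff_linearCombination k).mp hf
  by_contra hcon
  push Not at hcon
  apply h0
  have : l = 0 := by
    ext z
    by_cases hz : z ∈ Z
    · have := hcon z hz
      rw [Finsupp.linearCombination_apply, Finsupp.sum, map_sum] at this
      simp only [map_smul, hκ, smul_eq_mul, mul_ite, mul_one, mul_zero, Finset.sum_ite_eq',
        Finsupp.mem_support_iff] at this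
      by_contra h
      have h' : l z ≠ 0 := h
      rw [if_pos h'] at this
      exact h' this
    · by_contra h
      exact hz (hl (Finsupp.mem_support_iff.mpr h))
  rw [this, map_zero]

lemma exists_Lam (p : ℕ) [Fact p.Prime] [CharP k p] (hx : x ≠ 0) (hy : y ≠ 0)
    (hli : LinearIndependent k (mon x y)) :
    ∃ Λ : Ω →ₗ[k] k, Λ (mon x y (-1, -1)) ≠ 0 ∧
      ∀ a, IsIntegral (Algebra.adjoin k ({x, y} : Set Ω)) a → ∃ n : ℕ, ∀ z : ℤ × ℤ,
        z ∉ Qd n → Λ (a * mon x y (-z - (1, 1))) = 0 := by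
  set A := Algebra.adjoin k ({x, y} : Set Ω) with hA
  have : CharP Ω p := charP_of_injective_algebraMap (algebraMap k Ω).injective p
  have hp : p.Prime := Fact.out
  obtain ⟨th, h1, h2, h3⟩ := exists_th (k := k) x y
  obtain ⟨κ, hκ⟩ := exists_kappa hli
  have hZ : ∀ {M N q : ℤ} {f g : Ω}, f ∈ FF k x y (Qd M) → g ∈ FF k x y (Zq N q) →
      ∀ L, M + N ≤ L → f * g ∈ FF k x y (Zq L q) := by
    intro M N q f g hf hg L hL
    refine FF_mul hx hy ?_ hf hg
    rintro z ⟨a1, a2, a3⟩ w hw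
    simp only [Zq, Set.mem_ofPred_eq, Prod.fst_add, Prod.snd_add] at hw ⊢
    omega
  let N : Submodule k Ω :=
    { carrier := {g | ∃ c ∈ A, c ≠ 0 ∧ ∃ M : ℕ, ∀ e : ℕ,
        c * th (g ^ p ^ e) ∈ FF k x y (Zq M (p ^ e : ℕ))}
      zero_mem' := ⟨1, one_mem _, one_ne_zero, 0, fun e => by
        rw [zero_pow (pow_ne_zero _ hp.ne_zero)]; simp⟩
      add_mem' := by
        rintro g g' ⟨c, hc, hc0, M, hM⟩ ⟨c', hc', hc0', M', hM'⟩
        obtain ⟨D, hD⟩ := Qd_of_mem_A hx hy hc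
        obtain ⟨D', hD'⟩ := Qd_of_mem_A hx hy hc'
        refine ⟨c * c', mul_mem hc hc', mul_ne_zero hc0 hc0', M + M' + D + D', fun e => ?_⟩
        rw [add_pow_char_pow, map_add, mul_add]
        refine add_mem ?_ ?_
        · rw [mul_comm c, mul_assoc]
          exact hZ hD' (hM e) _ (by push_cast; omega)
        · rw [mul_assoc]
          exact hZ hD (hM' e) _ (by push_cast; omega)
      smul_mem' := by
        rintro r g ⟨c, hc, hc0, M, hM⟩
        refine ⟨c, hc, hc0, M, fun e => ?_⟩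
        rw [_root_.smul_pow, map_smul, mul_smul_comm]
        exact Submodule.smul_mem _ _ (hM e) }
  have hnot : mon x y (-1, -1) ∉ N := by
    rintro ⟨c, hc, hc0, M, hM⟩
    obtain ⟨D, hD⟩ := Qd_of_mem_A hx hy hc
    obtain ⟨z, hz, hκz⟩ := kappa_ne hκ hD hc0
    have hlt : D + M < p ^ (D + M) := Nat.lt_pow_self hp.one_lt
    have h4 := hM (D + M)
    set q := p ^ (D + M) with hq
    rw [mon_pow, ← mul_one (mon x y _), h2, h1, mul_one] at h4
    have h5 := kappa_shift hx hy hκ z ((q : ℤ) * (-1), (q : ℤ) * (-1)) hD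
    rw [kappa_zero hκ ?_ h4] at h5
    · exact hκz h5.symm
    · obtain ⟨a1, a2, a3⟩ := hz
      simp only [Zq, Set.mem_ofPred_eq, Prod.fst_add, Prod.snd_add]
      omega
  obtain ⟨Λ, hΛ1, hΛ2⟩ := Submodule.exists_dual_map_eq_bot_of_notMem hnot inferInstance
  refine ⟨Λ, hΛ1, fun a ha => ?_⟩
  obtain ⟨n, c, hc, hc0, M, hM⟩ := bound_pow hx hy th h2 h3 ha
  refine ⟨n, fun z hz => ?_⟩
  have hmem : a * mon x y (-z - (1, 1)) ∈ N := by
    refine ⟨c, hc, hc0, M, fun e => ?_⟩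
    set q := p ^ e with hq
    rw [mul_pow, mon_pow, mul_comm (a ^ q), h2, mul_left_comm, mul_comm]
    refine FF_mul hx hy (W := {((q : ℤ) * (-z - ((1 : ℤ), (1 : ℤ))).1,
      (q : ℤ) * (-z - ((1 : ℤ), (1 : ℤ))).2)}) ?_ (hM q) (mon_mem (Set.mem_singleton _))
    rintro w ⟨a1, a2, a3⟩ u rfl
    simp only [Zq, Set.mem_ofPred_eq, Prod.fst_add, Prod.snd_add, Prod.fst_sub, Prod.snd_sub,
      Prod.fst_neg, Prod.snd_neg]
    simp only [Qd, Set.mem_ofPred_eq, not_and_or, not_le] at hz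
    have hq0 : (0 : ℤ) ≤ q := Int.natCast_nonneg q
    rcases hz with h | h | h
    · left
      have : 0 ≤ (q : ℤ) * (-z.1 - 1) := mul_nonneg hq0 (by omega)
      omega
    · right; left
      have : 0 ≤ (q : ℤ) * (-z.2 - 1) := mul_nonneg hq0 (by omega)
      omega
    · right; right
      have : 0 ≤ (q : ℤ) * (z.1 + z.2 - n - 1) := mul_nonneg hq0 (by omega)
      nlinarith
  have : Λ (a * mon x y (-z - (1, 1))) ∈ Submodule.map Λ N := Submodule.mem_map_of_mem hmem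
  rw [hΛ2] at this
  exact (Submodule.mem_bot k).mp this

lemma Qd_finite (n : ℤ) : (Qd n).Finite := by
  refine ((Set.finite_Icc (0 : ℤ) n).prod (Set.finite_Icc (0 : ℤ) n)).subset ?_
  rintro z ⟨a1, a2, a3⟩
  exact ⟨⟨a1, by omega⟩, ⟨a2, by omega⟩⟩

theorem split (p : ℕ) [Fact p.Prime] [CharP k p] (hx : x ≠ 0) (hy : y ≠ 0)
    (hli : LinearIndependent k (mon x y)) :
    ∃ ψ : Ω → Ω,
      (∀ a, IsIntegral (Algebra.adjoin k ({x, y} : Set Ω)) a →
        ψ a ∈ Algebra.adjoin k ({x, y} : Set Ω)) ∧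
      (∀ a a', IsIntegral (Algebra.adjoin k ({x, y} : Set Ω)) a →
        IsIntegral (Algebra.adjoin k ({x, y} : Set Ω)) a' → ψ (a + a') = ψ a + ψ a') ∧
      (∀ b ∈ Algebra.adjoin k ({x, y} : Set Ω), ∀ a,
        IsIntegral (Algebra.adjoin k ({x, y} : Set Ω)) a → ψ (b * a) = b * ψ a) ∧
      ψ 1 ≠ 0 := by
  classical
  set A := Algebra.adjoin k ({x, y} : Set Ω) with hA
  obtain ⟨Λ, hΛ1, hΛ2⟩ := exists_Lam p hx hy hli
  obtain ⟨κ, hκ⟩ := exists_kappa hli
  let t : Ω → ℤ × ℤ → Ω := fun a z => Λ (a * mon x y (-z - (1, 1))) • mon x y z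
  have hsupp : ∀ a, IsIntegral A a → ∃ n : ℕ, Function.support (t a) ⊆ Qd n := by
    intro a ha
    obtain ⟨n, hn⟩ := hΛ2 a ha
    refine ⟨n, fun z hz => ?_⟩
    by_contra h
    apply hz
    simp only [t, hn z h, zero_smul]
  have hfin : ∀ a, IsIntegral A a → (Function.support (t a)).Finite := by
    intro a ha
    obtain ⟨n, hn⟩ := hsupp a ha
    exact (Qd_finite n).subset hn
  have hadd : ∀ a a', IsIntegral A a → IsIntegral A a' →
      ∑ᶠ z, t (a + a') z = ∑ᶠ z, t a z + ∑ᶠ z, t a' z := by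
    intro a a' ha ha'
    rw [← finsum_add_distrib (hfin a ha) (hfin a' ha')]
    refine finsum_congr fun z => ?_
    simp only [t, add_mul, map_add, add_smul]
  have hint : ∀ b ∈ A, IsIntegral A b := fun b hb => isIntegral_algebraMap (x := (⟨b, hb⟩ : A))
  refine ⟨fun a => ∑ᶠ z, t a z, ?_, hadd, ?_, ?_⟩
  · intro a ha
    obtain ⟨n, hn⟩ := hsupp a ha
    show ∑ᶠ z, t a z ∈ A
    rw [finsum_eq_sum_of_support_subset (s := (Qd_finite n).toFinset) _ (by simpa using hn)]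
    refine Subalgebra.sum_mem _ fun z hz => ?_
    have hz' : z ∈ Qd n := by simpa using hz
    exact Subalgebra.smul_mem _ (mon_mem_A hz'.1 hz'.2.1) _
  · intro b hb a ha
    obtain ⟨M, hM⟩ := Qd_of_mem_A hx hy hb
    clear hb
    show ∑ᶠ z, t (b * a) z = b * ∑ᶠ z, t a z
    induction hM using Submodule.span_induction with
    | mem f hf =>
      obtain ⟨w, _, rfl⟩ := hf
      rw [mul_finsum' _ _ (hfin a ha), ← finsum_comp_equiv (Equiv.addRight w)]
      refine finsum_congr fun z => ?_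
      simp only [t, Equiv.coe_addRight]
      have e1 : mon x y w * a * mon x y (-(z + w) - (1, 1)) = a * mon x y (-z - (1, 1)) := by
        rw [mul_comm (mon x y w), mul_assoc, ← mon_add hx hy]
        congr 2; abel
      rw [e1, mon_add hx hy, mul_smul_comm, mul_comm (mon x y z)]
    | zero => simp [t]
    | add u v hu' hv' hu hv =>
      rw [add_mul, hadd _ _ ((hint u (mem_A_of_Qd hu')).mul ha) ((hint v (mem_A_of_Qd hv')).mul ha),
        hu, hv, add_mul]
    | smul r u hu' hu =>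
      rw [smul_mul_assoc, smul_mul_assoc, ← hu,
        smul_finsum' r (hfin _ ((hint u (mem_A_of_Qd hu')).mul ha))]
      refine finsum_congr fun z => ?_
      simp only [t, smul_mul_assoc, map_smul, smul_eq_mul, mul_smul]
  · intro h0
    obtain ⟨n, hn⟩ := hsupp 1 isIntegral_one
    have h0' : ∑ᶠ z, t 1 z = 0 := h0
    rw [finsum_eq_sum_of_support_subset (s := (Qd_finite n).toFinset) _ (by simpa using hn)] at h0'
    have h1 := congrArg (κ 0) h0'
    rw [map_sum, map_zero] at h1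
    simp only [t, map_smul, hκ, smul_eq_mul, mul_ite, mul_one, mul_zero, Finset.sum_ite_eq'] at h1
    rw [if_pos (by simp [Qd])] at h1
    apply hΛ1
    simpa using h1

end

end Pool.Agent.H.MP_afeaf0_al
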