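import Mathlib
import Pool.Agent.H.MP_afeaf0_al.Split
import Pool.Agent.H.MP_afeaf0_al.Glue

namespace Pool.Agent.H.MP_afeaf0_al

open Polynomial

lemma solid_abs {k Ω R : Type*} [Field k] [Field Ω] [Algebra k Ω] [CommRing R] [Algebra R Ω]
    (hinj : Function.Injective (algebraMap R Ω)) (A : Subalgebra k Ω) (ψ : Ω → Ω)
    (h1 : ∀ a, IsIntegral A a → ψ a ∈ A)
    (h2 : ∀ a a', IsIntegral A a → IsIntegral A a' → ψ (a + a') = ψ a + ψ a')
    (h3 : ∀ b ∈ A, ∀ a, IsIntegral A a → ψ (b * a) = b * ψ a) (h4 : ψ 1 ≠ 0)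
    (c : Ω) (hc : c ≠ 0)
    (H1 : ∀ ω, IsIntegral R ω → ∃ t ∈ A, t ≠ 0 ∧ IsIntegral A (t * ω) ∧
      ∀ a ∈ A, ∃ r : R, algebraMap R Ω r = c * (a / t))
    (H2 : ∀ ρ : R, ∃ a ∈ A, ∃ t ∈ A, t ≠ 0 ∧ t * algebraMap R Ω ρ = a) :
    ∃ f : integralClosure R Ω →ₗ[R] R, f ≠ 0 := by
  have hint : ∀ b ∈ A, IsIntegral A b := fun b hb => isIntegral_algebraMap (x := (⟨b, hb⟩ : A))
  have key : ∀ ω : integralClosure R Ω, ∃ r : R, ∀ b ∈ A, b ≠ 0 → IsIntegral A (b * (ω : Ω)) →
      algebraMap R Ω r = c * (ψ (b * ω) / b) := by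
    intro ω
    obtain ⟨t, ht, ht0, hti, hr⟩ := H1 ω ω.2
    obtain ⟨r, hr⟩ := hr _ (h1 _ hti)
    refine ⟨r, fun b hb hb0 hbi => ?_⟩
    rw [hr]
    congr 1
    rw [div_eq_div_iff ht0 hb0, mul_comm _ b, mul_comm _ t, ← h3 b hb _ hti, ← h3 t ht _ hbi]
    congr 1; ring
  choose g hg using key
  refine ⟨{ toFun := g, map_add' := ?_, map_smul' := ?_ }, ?_⟩
  · intro ω ω'
    obtain ⟨t, ht, ht0, hti, -⟩ := H1 ω ω.2
    obtain ⟨t', ht', ht0', hti', -⟩ := H1 ω' ω'.2
    apply hinj
    have i1 : IsIntegral A (t' * (t * ω)) := (hint t' ht').mul hti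
    have i2 : IsIntegral A (t * (t' * ω')) := (hint t ht).mul hti'
    have e1 : t * t' * ((ω + ω' : integralClosure R Ω) : Ω) = t' * (t * ω) + t * (t' * ω') := by
      push_cast; ring
    rw [map_add, hg ω t ht ht0 hti, hg ω' t' ht' ht0' hti',
      hg (ω + ω') (t * t') (mul_mem ht ht') (mul_ne_zero ht0 ht0') (by rw [e1]; exact i1.add i2),
      e1, h2 _ _ i1 i2, h3 t' ht' _ hti, h3 t ht _ hti']
    field_simp
  · intro ρ ω
    obtain ⟨t, ht, ht0, hti, -⟩ := H1 ω ω.2
    obtain ⟨a, ha, t', ht', ht0', hρ⟩ := H2 ρ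
    apply hinj
    have e1 : t * t' * ((ρ • ω : integralClosure R Ω) : Ω) = a * (t * ω) := by
      rw [← hρ, Subalgebra.coe_smul, Algebra.smul_def]; ring
    simp only [RingHom.id_apply, smul_eq_mul, map_mul]
    rw [hg ω t ht ht0 hti,
      hg (ρ • ω) (t * t') (mul_mem ht ht') (mul_ne_zero ht0 ht0')
        (by rw [e1]; exact (hint a ha).mul hti),
      e1, h3 a ha _ hti, ← hρ]
    field_simp
  · intro h0
    have h5 : g 1 = 0 := LinearMap.congr_fun h0 1
    have h6 := hg 1 1 (one_mem _) one_ne_zero (by simpa using isIntegral_one)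
    rw [h5, map_zero] at h6
    simp at h6
    rcases h6 with h | h
    · exact hc h
    · exact h4 h

lemma li_mon {k Ω : Type*} [Field k] [Field Ω] [Algebra k Ω] (j : k[X][X] →ₐ[k] Ω)
    (hj : Function.Injective j) : LinearIndependent k (mon (j (C X)) (j X)) := by
  have hx : j (C X) ≠ 0 := by
    rw [Ne, map_eq_zero_iff _ hj, C_eq_zero]; exact X_ne_zero
  have hy : j X ≠ 0 := by
    rw [Ne, map_eq_zero_iff _ hj]; exact X_ne_zero
  have b1 : LinearIndependent k (fun n : ℕ => (X ^ n : k[X])) := by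
    have := (basisMonomials k).linearIndependent
    convert this using 1
    ext1 n; simp [X_pow_eq_monomial]
  have b2 : LinearIndependent k[X] (fun n : ℕ => (X ^ n : k[X][X])) := by
    have := (basisMonomials k[X]).linearIndependent
    convert this using 1
    ext1 n; simp [X_pow_eq_monomial]
  have b3 := (linearIndependent_smul b1 b2).map' j.toLinearMap
    (LinearMap.ker_eq_bot.mpr hj)
  rw [linearIndependent_iff_finset_linearIndependent]
  intro s
  obtain ⟨N, hN⟩ : ∃ N : ℕ, ∀ z ∈ s, 0 ≤ z.1 + N ∧ 0 ≤ z.2 + N := by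
    refine ⟨s.sup fun z => z.1.natAbs + z.2.natAbs, fun z hz => ?_⟩
    have := Finset.le_sup (f := fun z : ℤ × ℤ => z.1.natAbs + z.2.natAbs) hz
    omega
  let f : s → ℕ × ℕ := fun z => ((z.1.1 + N).toNat, (z.1.2 + N).toNat)
  have hf : Function.Injective f := by
    intro z w h
    have h1 := hN z.1 z.2
    have h2 := hN w.1 w.2
    simp only [f, Prod.mk.injEq] at h
    apply Subtype.ext
    apply Prod.ext <;> omega
  have b4 := b3.comp f hf
  refine LinearIndependent.of_comp (LinearMap.mulLeft k (mon (j (C X)) (j X) (N, N))) ?_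
  suffices h : (LinearMap.mulLeft k (mon (j (C X)) (j X) (N, N))) ∘ (mon (j (C X)) (j X)) ∘
      (Subtype.val : s → ℤ × ℤ) =
      (j.toLinearMap ∘ fun p : ℕ × ℕ => (X ^ p.1 : k[X]) • (X ^ p.2 : k[X][X])) ∘ f by
    rw [h]; exact b4
  ext1 z
  have h1 := hN z.1 z.2
  simp only [Function.comp_apply, LinearMap.mulLeft_apply, AlgHom.toLinearMap_apply, f]
  rw [← mon_add hx hy, smul_eq_C_mul, map_mul, C_pow, map_pow, map_pow, ← zpow_natCast,
    ← zpow_natCast, Int.toNat_of_nonneg h1.1, Int.toNat_of_nonneg h1.2]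
  simp only [mon, Prod.fst_add, Prod.snd_add, add_comm]

lemma mem_adjoin_j {k Ω : Type*} [Field k] [Field Ω] [Algebra k Ω] (j : k[X][X] →ₐ[k] Ω)
    (f : k[X][X]) : j f ∈ Algebra.adjoin k ({j (C X), j X} : Set Ω) := by
  have hC : ∀ a : k[X], j (C a) ∈ Algebra.adjoin k ({j (C X), j X} : Set Ω) := by
    intro a
    induction a using Polynomial.induction_on' with
    | add a b ha hb => rw [C_add, map_add]; exact add_mem ha hb
    | monomial n r =>
      rw [← C_mul_X_pow_eq_monomial, C_mul, C_pow, map_mul, map_pow]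
      refine mul_mem ?_ (pow_mem (Algebra.subset_adjoin (by simp)) _)
      have : j (C (C r)) = algebraMap k Ω r := j.commutes r
      rw [this]; exact Subalgebra.algebraMap_mem _ _
  induction f using Polynomial.induction_on' with
  | add a b ha hb => rw [map_add]; exact add_mem ha hb
  | monomial n r =>
    rw [← C_mul_X_pow_eq_monomial, map_mul, map_pow]
    exact mul_mem (hC r) (pow_mem (Algebra.subset_adjoin (by simp)) _)

attribute [local instance] Polynomial.algebra in
theorem solid (p : ℕ) [Fact p.Prime] {k V : Type*} [Field k] [CharP k p] [CommRing V] [IsDomain V]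
    [Algebra k[X] V] (M : Submonoid k[X]) [IsLocalization M V] (hM : M ≤ nonZeroDivisors k[X])
    (R : Subring V[X]) (c : R) (hc0 : c ≠ 0) (hc : ∀ s : V[X], c * s ∈ R)
    {Ω : Type*} [Field Ω] [Algebra R Ω] (hinj : Function.Injective (algebraMap R Ω)) :
    ∃ f : integralClosure R Ω →ₗ[R] R, f ≠ 0 := by
  have hc1 : algebraMap R Ω c ≠ 0 := by rwa [Ne, map_eq_zero_iff _ hinj]
  let ι : V[X] →+* Ω :=
    { toFun := fun s => algebraMap R Ω ⟨c * s, hc s⟩ / algebraMap R Ω c
      map_one' := by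
        have : (⟨c * 1, hc 1⟩ : R) = c := Subtype.ext (by simp)
        rw [this, div_self hc1]
      map_mul' := by
        intro s t
        rw [div_mul_div_comm, div_eq_div_iff hc1 (mul_ne_zero hc1 hc1), ← map_mul, ← map_mul,
          ← map_mul, ← map_mul]
        congr 1; apply Subtype.ext; simp; ring
      map_zero' := by
        have : (⟨c * 0, hc 0⟩ : R) = 0 := Subtype.ext (by simp)
        rw [this, map_zero, zero_div]
      map_add' := by
        intro s t
        rw [← add_div, ← map_add]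
        congr 2; apply Subtype.ext; simp; ring }
  have hι1 : ∀ s, algebraMap R Ω ⟨c * s, hc s⟩ = algebraMap R Ω c * ι s := by
    intro s
    exact (mul_div_cancel₀ _ hc1).symm
  have hι2 : ∀ r : R, ι r = algebraMap R Ω r := by
    intro r
    apply mul_left_cancel₀ hc1
    rw [← hι1, ← map_mul]; rfl
  have hιinj : Function.Injective ι := by
    rw [injective_iff_map_eq_zero]
    intro s hs
    have := hι1 s
    rw [hs, mul_zero, map_eq_zero_iff _ hinj] at this
    have h2 : (c : V[X]) * s = 0 := congrArg Subtype.val this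
    exact (mul_eq_zero.mp h2).resolve_left fun h => hc0 (Subtype.ext h)
  have hVinj : Function.Injective (algebraMap k[X] V) := IsLocalization.injective V hM
  let j0 : k[X][X] →+* Ω := ι.comp (algebraMap k[X][X] V[X])
  have hj0 : Function.Injective j0 := hιinj.comp (Polynomial.map_injective _ hVinj)
  let _ : Algebra k Ω := (j0.comp (algebraMap k k[X][X])).toAlgebra
  let j : k[X][X] →ₐ[k] Ω := { j0 with commutes' := fun _ => rfl }
  have hj : Function.Injective j := hj0
  have hx : j (C X) ≠ 0 := by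
    rw [Ne, map_eq_zero_iff _ hj, C_eq_zero]; exact X_ne_zero
  have hy : j X ≠ 0 := by
    rw [Ne, map_eq_zero_iff _ hj]; exact X_ne_zero
  obtain ⟨ψ, h1, h2, h3, h4⟩ := split p hx hy (li_mon j hj)
  set A := Algebra.adjoin k ({j (C X), j X} : Set Ω) with hA
  have hAj : ∀ a ∈ A, ∃ f, j f = a := by
    have : A ≤ j.range := Algebra.adjoin_le (by
      rintro _ (rfl | rfl)
      · exact ⟨_, rfl⟩
      · exact ⟨_, rfl⟩)
    intro a ha; exact this ha
  have hloc : IsLocalization (M.map C) V[X] := Polynomial.isLocalization M V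
  have hm0 : ∀ m : M.map (C : k[X] →+* k[X][X]), j m ≠ 0 := by
    rintro ⟨_, t, ht, rfl⟩
    rw [Ne, map_eq_zero_iff _ hj]
    show ¬ C t = 0
    rw [C_eq_zero]; exact nonZeroDivisors.ne_zero (hM ht)
  refine solid_abs hinj A ψ h1 h2 h3 h4 _ hc1 ?_ ?_
  · intro ω hω
    let _ : Algebra V[X] Ω := ι.toAlgebra
    let _ : Algebra k[X][X] Ω := j0.toAlgebra
    have : IsScalarTower k[X][X] V[X] Ω := IsScalarTower.of_algebraMap_eq fun _ => rfl
    have hω1 : IsIntegral V[X] ω :=
      IsIntegral.map_of_comp_eq R.subtype (RingHom.id Ω) (RingHom.ext fun r => hι2 r) hω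
    obtain ⟨m, hm⟩ := IsIntegral.exists_multiple_integral_of_isLocalization
      (M.map (C : k[X] →+* k[X][X])) ω hω1
    refine ⟨j m, mem_adjoin_j j _, hm0 m, ?_, ?_⟩
    · exact IsIntegral.map_of_comp_eq (j0.codRestrict A.toSubring (mem_adjoin_j j)) (RingHom.id Ω)
        (RingHom.ext fun r => rfl) hm
    · intro a ha
      obtain ⟨f, rfl⟩ := hAj a ha
      refine ⟨⟨c * IsLocalization.mk' V[X] f m, hc _⟩, ?_⟩
      rw [hι1]
      congr 1
      rw [eq_div_iff (hm0 m)]
      have := congrArg ι (IsLocalization.mk'_spec V[X] f m)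
      rw [map_mul] at this
      exact this
  · intro ρ
    obtain ⟨⟨f, m⟩, e⟩ := IsLocalization.surj (M.map (C : k[X] →+* k[X][X])) (ρ : V[X])
    refine ⟨j f, mem_adjoin_j j _, j m, mem_adjoin_j j _, hm0 m, ?_⟩
    have := congrArg ι e
    rw [map_mul, hι2, mul_comm] at this
    exact this

attribute [local instance] Polynomial.algebra in
lemma exists_field (p : ℕ) [Fact p.Prime] : ∃ (k : Type) (_ : Field k) (_ : CharP k p),
    Nonempty (FractionRing k[X] ≃+* k) := by
  let D := MvPolynomial ℕ (ZMod p)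
  let k := FractionRing D
  refine ⟨k, inferInstance, inferInstance, ?_⟩
  have hloc : IsLocalization ((nonZeroDivisors D).map C) k[X] := Polynomial.isLocalization _ k
  have hinj : Function.Injective (algebraMap D[X] k[X]) :=
    Polynomial.map_injective _ (IsFractionRing.injective D k)
  have h1 := IsLocalization.localization_localization_isLocalization_of_has_all_units
    ((nonZeroDivisors D).map (C : D →+* D[X])) (nonZeroDivisors k[X]) (FractionRing k[X])
    (fun x hx => hx.mem_nonZeroDivisors)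
  have h2 : (nonZeroDivisors k[X]).comap (algebraMap D[X] k[X]) = nonZeroDivisors D[X] := by
    ext f
    simp only [Submonoid.mem_comap, mem_nonZeroDivisors_iff_ne_zero, Ne, map_eq_zero_iff _ hinj]
  rw [h2] at h1
  let e : D[X] ≃+* D := ((MvPolynomial.optionEquivLeft (ZMod p) ℕ).symm.trans
    (MvPolynomial.renameEquiv (ZMod p) (Denumerable.eqv (Option ℕ)))).toRingEquiv
  exact ⟨IsFractionRing.ringEquivOfRingEquiv (A := D[X]) (B := D) e⟩

theorem model_aux (p : ℕ) [Fact p.Prime] {k V K : Type} [Field k] [CharP k p]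
    (M : Submonoid k[X]) (hMm : ∀ f : k[X], f ∈ M ↔ f.eval 0 ≠ 0)
    (hM : M ≤ nonZeroDivisors k[X])
    [CommRing V] [IsDomain V] [IsNoetherianRing V] [Algebra k[X] V] [IsLocalization M V]
    [Field K] [Algebra k[X] K] [IsFractionRing k[X] K] (φ : K ≃+* k) :
    ∃ (R : Type) (_ : CommRing R) (_ : IsDomain R),
    IsNoetherianRing R ∧ CharP R p ∧
    (∃ O P Q P1 P2 : PrimeSpectrum R[X], O ⋖ P ∧ P ⋖ Q ∧ O < P1 ∧ P1 < P2 ∧ P2 < Q) ∧
    ∃ f : integralClosure R (AlgebraicClosure (FractionRing R)) →ₗ[R] R, f ≠ 0 := by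
  have hKinj : Function.Injective (algebraMap k[X] K) := IsFractionRing.injective _ _
  have hVinj : Function.Injective (algebraMap k[X] V) := IsLocalization.injective V hM
  have hu1 : ∀ y : M, IsUnit (algebraMap k[X] K y) := fun y =>
    IsUnit.mk0 _ (by rw [Ne, map_eq_zero_iff _ hKinj]; exact nonZeroDivisors.ne_zero (hM y.2))
  have hu2 : ∀ y : M, IsUnit (evalRingHom 0 (y : k[X])) := fun y => IsUnit.mk0 _ ((hMm _).mp y.2)
  let ev : V →+* K := IsLocalization.lift hu1
  let res : V →+* k := IsLocalization.lift hu2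
  have hev : ∀ f, ev (algebraMap k[X] V f) = algebraMap k[X] K f := IsLocalization.lift_eq hu1
  have hres : ∀ f, res (algebraMap k[X] V f) = f.eval 0 := IsLocalization.lift_eq hu2
  have hevinj : ∀ v, ev v = 0 → v = 0 := by
    intro v hv
    obtain ⟨⟨f, m⟩, e⟩ := IsLocalization.surj M v
    have := congrArg ev e
    rw [map_mul, hv, zero_mul, hev, eq_comm, map_eq_zero_iff _ hKinj] at this
    simp only at this e
    rw [this, map_zero] at e
    exact (IsLocalization.map_units V m).mul_left_eq_zero.mp e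
  let x : K := algebraMap k[X] K X
  have hx : x ≠ 0 := by rw [Ne, map_eq_zero_iff _ hKinj]; exact X_ne_zero
  let xV : V := algebraMap k[X] V X
  let α0 : V[X] →+* K := eval₂RingHom ev x⁻¹
  let α : V[X] →+* k := φ.toRingHom.comp α0
  let γ : V[X] →+* V := evalRingHom 0
  let β : V[X] →+* k := res.comp γ
  let e : V[X] := C xV * X
  have hα0C : ∀ v, α0 (C v) = ev v := fun v => by simp [α0]
  have hα0X : α0 X = x⁻¹ := by simp [α0]
  have hα0e : α0 e = 1 := by
    simp only [e]; rw [map_mul, hα0C, hα0X, hev]; exact mul_inv_cancel₀ hx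
  have he1 : α e = 1 := by show φ (α0 e) = 1; rw [hα0e, map_one]
  have hγe : γ e = 0 := by simp [γ, e]
  have he2 : β e = 0 := by show res (γ e) = 0; rw [hγe, map_zero]
  have hα : Function.Surjective α := by
    refine φ.surjective.comp (g := φ) (f := α0) ?_
    intro t
    obtain ⟨f, g, hg, rfl⟩ := IsFractionRing.div_surjective (A := k[X]) t
    have hg0 : g ≠ 0 := nonZeroDivisors.ne_zero hg
    obtain ⟨g', e1, h1⟩ := exists_eq_pow_rootMultiplicity_mul_and_not_dvd g hg0 0
    rw [dvd_iff_isRoot] at h1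
    have hg' : g' ∈ M := (hMm _).mpr h1
    set n := rootMultiplicity 0 g
    refine ⟨C (IsLocalization.mk' V f ⟨g', hg'⟩) * X ^ n, ?_⟩
    have h2 := congrArg ev (IsLocalization.mk'_spec V f ⟨g', hg'⟩)
    rw [map_mul, hev, hev] at h2
    have h3 : algebraMap k[X] K g' ≠ 0 := (hu1 ⟨g', hg'⟩).ne_zero
    rw [map_mul, map_pow, hα0C, hα0X, e1, ← h2, C_0, sub_zero, map_mul, map_pow]
    show _ = _ * algebraMap k[X] K g' / (x ^ n * algebraMap k[X] K g')
    rw [inv_pow]
    field_simp
  have hβ : Function.Surjective β := by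
    intro t
    refine ⟨C (algebraMap k[X] V (C t)), ?_⟩
    show res (γ _) = t
    simp only [γ, coe_evalRingHom, eval_C]
    rw [hres, eval_C]
  have hker : ∀ s, α s = 0 → (1 - e) ∣ s := by
    intro s hs
    have hs0 : α0 s = 0 := by
      have : φ (α0 s) = 0 := hs
      exact (map_eq_zero_iff _ φ.injective).mp this
    obtain ⟨N, h, r, e1⟩ := pseudo xV 1 s
    have h1 := congrArg α0 e1
    have h0 : α0 (C xV * X - C 1) = 0 := by
      have : α0 (C xV * X - C 1) = α0 e - α0 (C 1) := RingHom.map_sub α0 _ _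
      rw [this, hα0e, C_1, map_one, sub_self]
    rw [map_mul, hs0, mul_zero, map_add, map_mul, h0, zero_mul, zero_add, hα0C] at h1
    have hr := hevinj r h1.symm
    rw [hr, C_0, add_zero, C_1] at e1
    obtain ⟨u, hu⟩ := one_sub_dvd_one_sub_pow e N
    refine ⟨u * s - X ^ N * h, ?_⟩
    have h2 : e ^ N = C (xV ^ N) * X ^ N := by simp only [e]; rw [mul_pow, C_pow]
    have h3 : C xV * X = e := rfl
    rw [h3] at e1
    rw [h2] at hu
    linear_combination s * hu + X ^ N * e1
  have hxV : xV ≠ 0 := by rw [Ne, map_eq_zero_iff _ hVinj]; exact X_ne_zero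
  refine ⟨α.eqLocus β, inferInstance, inferInstance, noeth α β hα hβ he1 he2, ?_, ?_, ?_⟩
  · have h1 : CharP V p := charP_of_injective_ringHom (f := (algebraMap k[X] V).comp C)
      (hVinj.comp C_injective) p
    infer_instance
  · refine chains α β hα hβ he1 he2 hker γ (fun s hs => ?_) hγe (C xV) ?_ ?_
    · show res (γ s) = 0
      rw [hs, map_zero]
    · show res (γ _) = 0
      simp only [γ, coe_evalRingHom, eval_C]
      rw [hres, eval_X]
    · simpa [γ] using hxV
  · refine solid p M hM (α.eqLocus β) ⟨e * (1 - e), by show α _ = β _; simp [he1, he2]⟩ ?_ ?_ ?_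
    · intro h
      have h1 : e * (1 - e) = 0 := congrArg Subtype.val h
      rcases mul_eq_zero.mp h1 with h2 | h2
      · rw [h2] at he1; simp at he1
      · have : e = 1 := by linear_combination -h2
        rw [this] at he2; simp at he2
    · intro s
      show α _ = β _
      simp [he1, he2]
    · rw [IsScalarTower.algebraMap_eq (α.eqLocus β) (FractionRing (α.eqLocus β))]
      exact (algebraMap (FractionRing (α.eqLocus β)) _).injective.comp
        (IsFractionRing.injective _ _)

theorem model (p : ℕ) [Fact p.Prime] : ∃ (R : Type) (_ : CommRing R) (_ : IsDomain R),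
    IsNoetherianRing R ∧ CharP R p ∧
    (∃ O P Q P1 P2 : PrimeSpectrum R[X], O ⋖ P ∧ P ⋖ Q ∧ O < P1 ∧ P1 < P2 ∧ P2 < Q) ∧
    ∃ f : integralClosure R (AlgebraicClosure (FractionRing R)) →ₗ[R] R, f ≠ 0 := by
  obtain ⟨k, _, _, ⟨φ⟩⟩ := exists_field p
  let M : Submonoid k[X] := (nonZeroDivisors k).comap (evalRingHom 0)
  have hMm : ∀ f : k[X], f ∈ M ↔ f.eval 0 ≠ 0 := fun f => by
    simp [M, mem_nonZeroDivisors_iff_ne_zero]
  have hM : M ≤ nonZeroDivisors k[X] := by
    intro f hf
    rw [mem_nonZeroDivisors_iff_ne_zero]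
    rintro rfl
    simp [hMm] at hf
  have : IsDomain (Localization M) := IsLocalization.isDomain_localization hM
  have : IsNoetherianRing (Localization M) := IsLocalization.isNoetherianRing M _ inferInstance
  exact model_aux p (V := Localization M) M hMm hM φ

end Pool.Agent.H.MP_afeaf0_al
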